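import Mathlib

namespace Pool.Agent.H.MP_72f8f6_ag

/-- the ring with basis `1, g, e1, e2`, `g e1 = 2 e2`, all other products zero -/
@[ext] structure A where
  a : ℤ
  b : ℤ
  c : ℤ
  d : ℤ

instance : Zero A := ⟨⟨0, 0, 0, 0⟩⟩
instance : One A := ⟨⟨1, 0, 0, 0⟩⟩
instance : Add A := ⟨fun x y => ⟨x.a + y.a, x.b + y.b, x.c + y.c, x.d + y.d⟩⟩
instance : Neg A := ⟨fun x => ⟨-x.a, -x.b, -x.c, -x.d⟩⟩
instance : Mul A := ⟨fun x y => ⟨x.a * y.a, x.a * y.b + x.b * y.a, x.a * y.c + x.c * y.a,
  x.a * y.d + x.d * y.a + 2 * (x.b * y.c + x.c * y.b)⟩⟩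

@[simp] theorem zero_a : (0 : A).a = 0 := rfl
@[simp] theorem zero_b : (0 : A).b = 0 := rfl
@[simp] theorem zero_c : (0 : A).c = 0 := rfl
@[simp] theorem zero_d : (0 : A).d = 0 := rfl
@[simp] theorem one_a : (1 : A).a = 1 := rfl
@[simp] theorem one_b : (1 : A).b = 0 := rfl
@[simp] theorem one_c : (1 : A).c = 0 := rfl
@[simp] theorem one_d : (1 : A).d = 0 := rfl
@[simp] theorem add_a (x y : A) : (x + y).a = x.a + y.a := rfl
@[simp] theorem add_b (x y : A) : (x + y).b = x.b + y.b := rfl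
@[simp] theorem add_c (x y : A) : (x + y).c = x.c + y.c := rfl
@[simp] theorem add_d (x y : A) : (x + y).d = x.d + y.d := rfl
@[simp] theorem neg_a (x : A) : (-x).a = -x.a := rfl
@[simp] theorem neg_b (x : A) : (-x).b = -x.b := rfl
@[simp] theorem neg_c (x : A) : (-x).c = -x.c := rfl
@[simp] theorem neg_d (x : A) : (-x).d = -x.d := rfl
@[simp] theorem mul_a (x y : A) : (x * y).a = x.a * y.a := rfl
@[simp] theorem mul_b (x y : A) : (x * y).b = x.a * y.b + x.b * y.a := rfl
@[simp] theorem mul_c (x y : A) : (x * y).c = x.a * y.c + x.c * y.a := rfl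
@[simp] theorem mul_d (x y : A) :
    (x * y).d = x.a * y.d + x.d * y.a + 2 * (x.b * y.c + x.c * y.b) := rfl

instance : CommRing A where
  add_assoc x y z := by ext <;> simp <;> ring
  zero_add x := by ext <;> simp
  add_zero x := by ext <;> simp
  add_comm x y := by ext <;> simp <;> ring
  neg_add_cancel x := by ext <;> simp
  nsmul := nsmulRec
  zsmul := zsmulRec
  left_distrib x y z := by ext <;> simp <;> ring
  right_distrib x y z := by ext <;> simp <;> ring
  zero_mul x := by ext <;> simp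
  mul_zero x := by ext <;> simp
  mul_assoc x y z := by ext <;> simp <;> ring
  one_mul x := by ext <;> simp
  mul_one x := by ext <;> simp
  mul_comm x y := by ext <;> simp <;> ring

/-- coordinates -/
def co : A →+ ℤ × ℤ × ℤ × ℤ where
  toFun x := (x.a, x.b, x.c, x.d)
  map_zero' := rfl
  map_add' _ _ := rfl

theorem noeth : IsNoetherianRing A := by
  have h : Module.Finite ℤ A := Module.Finite.of_injective co.toIntLinearMap fun x y h => by
    simp only [AddMonoidHom.coe_toIntLinearMap, co, AddMonoidHom.coe_mk, ZeroHom.coe_mk,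
      Prod.mk.injEq] at h
    exact A.ext h.1 h.2.1 h.2.2.1 h.2.2.2
  exact Algebra.FiniteType.isNoetherianRing ℤ A

/-- generators -/
def f : A := ⟨2, 0, 0, 0⟩
def g : A := ⟨0, 1, 0, 0⟩
def e1 : A := ⟨0, 0, 1, 0⟩
def e2 : A := ⟨0, 0, 0, 1⟩

/-- projection killing `e1, e2` -/
def pr : A →+* A where
  toFun x := ⟨x.a, x.b, 0, 0⟩
  map_zero' := rfl
  map_one' := rfl
  map_add' _ _ := rfl
  map_mul' x y := by ext <;> simp

theorem f_reg (x : A) (h : x * f = 0) : x = 0 := by
  have h1 := congrArg A.a h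
  have h2 := congrArg A.b h
  have h3 := congrArg A.c h
  have h4 := congrArg A.d h
  simp [f] at h1 h2 h3 h4
  ext <;> simp [h1, h2, h3, h4]

theorem fpow_reg (n : ℕ) (x : A) (h : x * f ^ n = 0) : x = 0 := by
  induction n with
  | zero => simpa using h
  | succ n ih => exact ih (f_reg _ (by rw [mul_assoc, ← pow_succ, h]))

theorem mem_I (x : A) : x ∈ Ideal.span (Set.range ![e1, e2]) ↔ x.a = 0 ∧ x.b = 0 := by
  rw [Ideal.mem_span_range_iff_exists_fun]
  constructor
  · rintro ⟨c, rfl⟩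
    simp [Fin.sum_univ_two, e1, e2]
  · rintro ⟨h1, h2⟩
    refine ⟨![⟨x.c, 0, 0, 0⟩, ⟨x.d, 0, 0, 0⟩], ?_⟩
    ext <;> simp [Fin.sum_univ_two, e1, e2, h1, h2]

theorem I_sq : Ideal.span (Set.range ![e1, e2]) ^ 2 = ⊥ := by
  rw [pow_two, eq_bot_iff, Ideal.mul_le]
  intro x hx y hy
  rw [mem_I] at hx hy
  rw [Ideal.mem_bot]
  ext <;> simp [hx.1, hx.2, hy.1, hy.2]

theorem colon (j : ℕ) : (Ideal.span (Set.range ![e1, e2]) ^ j).colon {f} =
    Ideal.span (Set.range ![e1, e2]) ^ j := by
  ext x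
  rw [Submodule.mem_colon_singleton, smul_eq_mul]
  match j with
  | 0 => simp
  | 1 =>
    rw [pow_one, mem_I, mem_I]
    simp [f]
  | j + 2 =>
    rw [pow_add, I_sq, Ideal.mul_bot, Ideal.mem_bot, Ideal.mem_bot]
    exact ⟨f_reg x, fun h => by rw [h, zero_mul]⟩

open MvPolynomial in
theorem decomp (P : MvPolynomial (Fin 3) A) : ∃ a b c : Polynomial A,
    P - (Polynomial.aeval (X 0) a + X 1 * Polynomial.aeval (X 0) b +
      X 2 * Polynomial.aeval (X 0) c) ∈
      Ideal.span ({X 1 * X 1, X 1 * X 2, X 2 * X 2} : Set (MvPolynomial (Fin 3) A)) := by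
  induction P using MvPolynomial.induction_on with
  | C r => exact ⟨Polynomial.C r, 0, 0, by simp⟩
  | add p q hp hq =>
    obtain ⟨a, b, c, h⟩ := hp
    obtain ⟨a', b', c', h'⟩ := hq
    refine ⟨a + a', b + b', c + c', ?_⟩
    convert add_mem h h' using 1
    simp only [map_add]; ring
  | mul_X p i hp =>
    obtain ⟨a, b, c, h⟩ := hp
    have h11 : X 1 * X 1 ∈ Ideal.span ({X 1 * X 1, X 1 * X 2, X 2 * X 2} :
      Set (MvPolynomial (Fin 3) A)) := Ideal.subset_span (by simp)
    have h12 : X 1 * X 2 ∈ Ideal.span ({X 1 * X 1, X 1 * X 2, X 2 * X 2} :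
      Set (MvPolynomial (Fin 3) A)) := Ideal.subset_span (by simp)
    have h22 : X 2 * X 2 ∈ Ideal.span ({X 1 * X 1, X 1 * X 2, X 2 * X 2} :
      Set (MvPolynomial (Fin 3) A)) := Ideal.subset_span (by simp)
    fin_cases i
    · refine ⟨a * Polynomial.X, b * Polynomial.X, c * Polynomial.X, ?_⟩
      convert Ideal.mul_mem_right (X 0) _ h using 1
      simp only [map_mul, Polynomial.aeval_X, Fin.zero_eta]; ring
    · refine ⟨0, a, 0, ?_⟩
      convert add_mem (add_mem (Ideal.mul_mem_right (X 1) _ h)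
        (Ideal.mul_mem_right (Polynomial.aeval (X 0) b) _ h11))
        (Ideal.mul_mem_right (Polynomial.aeval (X 0) c) _ h12) using 1
      simp only [map_zero, Fin.mk_one]; ring
    · refine ⟨0, 0, a, ?_⟩
      convert add_mem (add_mem (Ideal.mul_mem_right (X 2) _ h)
        (Ideal.mul_mem_right (Polynomial.aeval (X 0) b) _ h12))
        (Ideal.mul_mem_right (Polynomial.aeval (X 0) c) _ h22) using 1
      simp only [map_zero, Fin.reduceFinMk]; ring

open MvPolynomial in
theorem upper (L : Ideal (MvPolynomial (Fin 3) A))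
    (hL : ∀ r s t : A, r * f + s * e1 + t * e2 = 0 → C r * X 0 + C s * X 1 + C t * X 2 ∈ L)
    (P : MvPolynomial (Fin 3) A)
    (hP : aeval (fun j => Polynomial.C (![f, e1, e2] j) * Polynomial.X) P = 0) : C g * P ∈ L := by
  obtain ⟨a, b, c, h⟩ := decomp P
  have l1 : C g * X 1 - C f * X 2 ∈ L := by
    have := hL 0 g (-f) (by ext <;> simp [f, g, e1, e2])
    simpa [sub_eq_add_neg] using this
  have l2 : C g * X 2 ∈ L := by simpa using hL 0 0 g (by ext <;> simp [f, g, e1, e2])
  have l3 : C f * X 2 - C e2 * X 0 ∈ L := by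
    have := hL (-e2) 0 f (by ext <;> simp [f, e1, e2])
    simpa [sub_eq_add_neg, add_comm] using this
  have l4 : C e2 * X 1 ∈ L := by simpa using hL 0 e2 0 (by ext <;> simp [f, e1, e2])
  have hQ : ∀ q ∈ Ideal.span ({X 1 * X 1, X 1 * X 2, X 2 * X 2} : Set (MvPolynomial (Fin 3) A)),
      C g * q ∈ L ∧ aeval (fun j => Polynomial.C (![f, e1, e2] j) * Polynomial.X) q = 0 := by
    intro q hq
    refine Submodule.span_induction (p := fun q _ => C g * q ∈ L ∧
      aeval (fun j => Polynomial.C (![f, e1, e2] j) * Polynomial.X) q = 0) ?_ ?_ ?_ ?_ hq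
    · have z : ∀ u v : A, u * v = 0 → Polynomial.C u * Polynomial.X *
          (Polynomial.C v * Polynomial.X) = 0 := fun u v h => by
        rw [mul_mul_mul_comm, ← Polynomial.C_mul, h, map_zero, zero_mul]
      rintro _ (rfl | rfl | rfl)
      · refine ⟨?_, by simpa using z e1 e1 (by ext <;> simp [e1])⟩
        convert add_mem (add_mem (Ideal.mul_mem_right (X 1) _ l1) (Ideal.mul_mem_right (X 1) _ l3))
          (Ideal.mul_mem_right (X 0) _ l4) using 1
        ring
      · refine ⟨?_, by simpa using z e1 e2 (by ext <;> simp [e1, e2])⟩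
        convert Ideal.mul_mem_right (X 1) _ l2 using 1
        ring
      · refine ⟨?_, by simpa using z e2 e2 (by ext <;> simp [e2])⟩
        convert Ideal.mul_mem_right (X 2) _ l2 using 1
        ring
    · simp
    · intro x y _ _ hx hy
      exact ⟨by rw [mul_add]; exact add_mem hx.1 hy.1, by rw [map_add, hx.2, hy.2, add_zero]⟩
    · intro r x _ hx
      exact ⟨by rw [smul_eq_mul, mul_left_comm]; exact Ideal.mul_mem_left _ _ hx.1,
        by rw [smul_eq_mul, map_mul, hx.2, mul_zero]⟩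
  obtain ⟨h1, h2⟩ := hQ _ h
  rw [map_sub, hP, zero_sub, neg_eq_zero] at h2
  simp only [map_add, map_mul, ← Polynomial.aeval_algHom_apply, aeval_X, Matrix.cons_val_zero,
    Matrix.cons_val_one, Matrix.cons_val, ← Polynomial.comp_eq_aeval] at h2
  have c0 : a.coeff 0 = 0 := by
    have := congrArg (fun p => Polynomial.coeff p 0) h2
    simpa [Polynomial.comp_C_mul_X_coeff, mul_assoc] using this
  have cn : ∀ n, a.coeff (n + 1) * f + b.coeff n * e1 + c.coeff n * e2 = 0 := by
    intro n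
    have := congrArg (fun p => Polynomial.coeff p (n + 1)) h2
    simp only [Polynomial.coeff_add, mul_assoc, Polynomial.coeff_C_mul, Polynomial.coeff_X_mul,
      Polynomial.comp_C_mul_X_coeff, Polynomial.coeff_zero] at this
    refine fpow_reg n _ ?_
    linear_combination this
  have h3 : Polynomial.aeval (X 0) a + X 1 * Polynomial.aeval (X 0) b +
      X 2 * Polynomial.aeval (X 0) c ∈ L := by
    obtain ⟨N, ha, hb, hc⟩ : ∃ N, a.natDegree < N + 1 ∧ b.natDegree < N ∧ c.natDegree < N :=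
      ⟨a.natDegree + b.natDegree + c.natDegree + 1, by omega, by omega, by omega⟩
    rw [Polynomial.aeval_eq_sum_range' ha, Polynomial.aeval_eq_sum_range' hb,
      Polynomial.aeval_eq_sum_range' hc, Finset.sum_range_succ', c0, zero_smul, add_zero,
      Finset.mul_sum, Finset.mul_sum, ← Finset.sum_add_distrib, ← Finset.sum_add_distrib]
    refine Ideal.sum_mem _ fun n _ => ?_
    convert Ideal.mul_mem_right (X 0 ^ n) _ (hL _ _ _ (cn n)) using 1
    simp only [smul_eq_C_mul]
    ring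
  convert add_mem h1 (Ideal.mul_mem_left _ (C g) h3) using 1
  ring

end Pool.Agent.H.MP_72f8f6_ag
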